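import Mathlib
import Pool.Agent.Q29.BX.Rows
import Pool.Agent.TH170.GS.Rel
import Pool.Agent.TH170.GS.TB
import Pool.Agent.Q29.FN.Zeta

/-!
# Zeta orders and ranks of higher Chow groups for the schemes generated by abelian varieties over
finite fields with almost all slopes of every CM field

Over an algebraic closure of the field with `p` elements each abelian variety is isogenous to the
reduction of an abelian variety of CM type (Honda, Tate). So an abelian variety over the field with
`p ^ a` elements is modelled by `RedAV` (starting files): a finite product of CM types `(E i, Φ i)`
with Weil numbers `π i ∈ E i` that satisfy the formula of Shimura and Taniyama; its cohomology of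
degree `n`, with coefficients in an algebraically closed field `Ω`, consists of the alternating
`n`-forms on `Ω ⊗ H_1`, on which the Frobenius endomorphism acts by `π`. Let `K i` be finitely many
CM fields, of degrees `2 g i`, that are pairwise independent: for `i ≠ k` and all complex embeddings
`φ` of `K i` and `ψ` of `K k` some automorphism of `ℂ` is the identity on `φ (K i)` and the complex
conjugation on `ψ (K k)` (this is no condition for one field).

We fix an isomorphism `ν` of the algebraic closure of `ℚ_p` with `ℂ`; it defines a `p`-adic
valuation of `ℂ`, with the value one at `p`. Let `M i` be a function with integral values on the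
complex embeddings of `K i`, invariant under complex conjugation (the weights). A CM type `Φ i` of
`K i` (a choice of one element out of each complex conjugate pair of embeddings), `M i` and a real
number `κ ≠ 0` prescribe the slopes `(a + κ M) / 2` (at the embeddings in `Φ i`) and `(a - κ M) / 2`
(outside of `Φ i`) of a Weil number for `p ^ a` in `K i`. If `p` splits completely in `K i` then, by
Honda and Tate, all rational slopes between `0` and `a` that are symmetric in this way occur for
abelian varieties over finite fields. The case `M = 1`, `κ = a` is the ordinary case.

For a family of types `Φ i` let `𝒞` (`OfTypes`) be the class of the abelian varieties `Y` each of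
whose factors is supersingular or has a Frobenius endomorphism some power of which is, for some `i`,
a Weil number in `K i` with the slopes prescribed by `Φ i`, `M i` and some real number `κ i ≠ 0`
(which depends only on `Y` and `i`). So `Y` is, over an algebraic closure, isogenous to a product of
powers of one abelian variety for each `i`, with the given slopes, and of a supersingular one. If `M
= 1` and `κ = a` the class contains all ordinary abelian varieties with the CM types `Φ i`.

`Homology Ω V` are data of motivic homology `M X i j = H_i^M(X, ℚ(j)) = CH_j(X, i - 2 j) ⊗ ℚ` and of
`ℓ`-adic homology `E X i j = H_i(X, ℚ_ℓ(j))` (coefficients extended to `Ω`) of schemes `X` of finite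
type over a finite field (the elements of `V`), with the Frobenius and the regulator. For a family
of types let `𝒢` be the smallest class (`Generated`) of such schemes that contains those with the
homology groups of abelian varieties in `𝒞` (`IsAbelianOfTypes`), that is closed under direct
summands of finite sums of twists of motives, and that contains all of a closed subscheme `Z` of
`X`, `X` and `X ∖ Z` if it contains two of them.

The property `Holds` of the slope types `Φ i`, `M i` is the following: **for all schemes `X` in `𝒢`
- smooth or not, proper or not - the conjectures of Bloch and Soulé (`ZetaOrders`) are true.** That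
is, the zeta function of `X` has a meromorphic continuation to the whole plane, and for all integers
`j` the groups `CH_j (X, m) ⊗ ℚ` (this is `T.M X (2 j + m) j`, and `CH ^ r (X, m) ⊗ ℚ` for `j = d -
r` in the notation of the question) are finite-dimensional and zero for all large `m`, and

`ord_{s = j} ζ_X (s) = - ∑_m (-1) ^ m rank CH_j (X, m)`.

The first part, for all schemes over finite fields, is due to Dwork and Grothendieck and is only
included since the second part is about the continuation. The second part is Q2 for `X`.

The formal statement. `V` is the class of the separated schemes of finite type over the field with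
`Q` elements, `sp X` the scheme of Mathlib which belongs to `X : V`, and `eulerProduct (sp X)` is
its Euler product over the closed points, as in the frozen statements of Q1. `HasTraceFormula` is
the theorem of Grothendieck which expresses the Euler product by the characteristic polynomials of
the Frobenius on the cohomology with compact supports; it is a hypothesis, as are the properties of
the theory of cycles that are used for the abelian varieties (`IsHomology`, starting files):
Poincaré duality, the formal properties of correspondences, the nilpotence of homologically trivial
correspondences (Kimura), the operation of the Frobenius endomorphism on higher Chow groups, the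
vanishing of the higher rational `K`-groups of a finite field (Quillen), and the theorem of Tate on
divisors; and `CH_j (X, m) = 0` for `m < 0`.

For all `X` in `𝒢` the conjecture `TB (X)` of Jannsen is true (`MP_2ce3e7_ag.EveryCMField`): the
regulators induce isomorphisms of `H_i^M(X, ℚ(j)) ⊗ ℂ` with the spaces of the Frobenius invariants
in `H_i(X, ℚ_ℓ(j))`, and the eigenvalue one is semisimple. So the rank of `CH_j (X, m)` is the
multiplicity of the zero `s = j` of the function `det (1 - Q ^ (- s) F)`, `F` the geometric
Frobenius on the cohomology with compact supports in the degree `2 j + m`. This last step was proved
by helper124 (`Pool.Agent.Q124.ZO`).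


**The theorem** (`AllFields`). Let `E` be **any CM field**, of degree `2 g`; no condition on `g`, on
the Galois group or the subfields is needed. Let `m` be a natural number. The slope functions with
the denominator `m` are the functions `a (1 + D / m) / 2`, where `D` is one of the `(m + 1) ^ g`
integral functions on the complex embeddings of `E` with `D φ̄ = - D φ`, `|D φ| ≤ m` and `D φ`
congruent to `m` modulo 2 (`Box`). The weights are `M = |D|`, and `D ≥ 0` on the types. **The
property is true for all but at most `g (m + 1) ^ (g - 1)` of them**, a proportion of `g / (m + 1)`;
so for almost all slope functions of every CM field, if the denominator is large compared to the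
degree.

This is proved more generally for finitely many pairwise independent fields `K i` and numbers `m i`;
the exceptions are a proportion of at most `∑ g i / (m i + 1)` of all families of functions `D i`.

**What was known.** For weights with values dividing a fixed number `n`, and `g → ∞`, the property
is known for almost all CM types of many CM fields (starting files, and the hand-in `TypicalFields`
for this problem), but it is false for nearly one half of all CM types of a multiquadratic field.
Here the field is fixed and arbitrary, and the denominator tends to infinity. Neither of the two
theorems contains the other.

**The proof** that there are no homogeneous relations `∑ n φ * D (σ φ) = 0` for all automorphisms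
`σ` of `ℂ`, with `n φ̄ = - n φ`, `n ≠ 0`, for most functions `D`: let `φ i` be the embeddings of a
type. The functions `D` with relations are zeros of the polynomial `det (D (σ j φ i))` of degree `g`
in the `g` variables `D (φ i)`, for all automorphisms `σ j` of `ℂ`; if `σ j` maps `φ j` to `φ 1`
then it is not zero, since its value for the function with the values `1` at `φ 1`, `-1` at its
conjugate and `0` elsewhere is the determinant of the unit matrix. Then the lemma of Schwartz and
Zippel gives the bound.
-/

set_option autoImplicit false

namespace Pool.Agent.Results.MP_666bea_ag.EveryCMField

open CategoryTheory AlgebraicGeometry NumberField Module Pool.Agent.H204R3.CM Pool.Agent.H977R3.CM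
  Pool.Agent.TH170 Pool.Agent.TH170.FW Pool.Agent.Q29.TE Pool.Agent.W495.TA Pool.Agent.W495.FM
  Pool.Agent.Q124.ZO

open Pool.Agent.Q29.DP (notMem_degTypes_of_noRelations)

open Pool.Agent.Q29.BX (AllFields allFields)

/-- The conjectures of Bloch and Soulé hold for all schemes generated by abelian varieties over finite
fields with the slope types `Φ`. -/
def Holds {p : ℕ} [Fact p.Prime] (ν : PadicAlgCl p ≃+* ℂ) {I : Type} (K : I → Type)
    [∀ i, Field (K i)] (M : ∀ i, (K i →+* ℂ) → ℤ) (Φ : ∀ i, Set (K i →+* ℂ)) : Prop :=
  ∀ (V : Type) (T : Homology ℂ V) (sp : V → Scheme.{0}) (Q : ℕ), IsHomology T →
    (∀ (X : V) (i j : ℤ), i < 2 * j → ∀ x : T.M X i j, x = 0) → 1 < Q →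
    (∀ X : V, HasTraceFormula T sp Q X) →
    ∀ X : V, Generated T (GS.IsAbelianOfTypes ν K M Φ T) X → ZetaOrders T sp X

theorem holds_of {p : ℕ} [Fact p.Prime] {ν : PadicAlgCl p ≃+* ℂ} {I : Type} (K : I → Type)
    [∀ i, Field (K i)] (M : ∀ i, (K i →+* ℂ) → ℤ) (Φ : ∀ i, Set (K i →+* ℂ))
    (h : ∀ Y : RedAV p ν, GS.OfTypes K M Φ Y → ∃ Z : RedAV p ν,
      TH117.BL.HasElementaryRelations Z ∧ TH117.BL.IsPowersTimesSupersingular Z Y) :
    Holds ν K M Φ := fun _ _ _ _ hT hneg hQ htr X hX =>
  Pool.Agent.Q29.FN.zetaOrders hT (hneg X) (GS.tb_types h hT hX) hQ (htr X)

/-- The property of the slope types. -/
def Q : TypeProperty := fun _ _ ν _ _ K _ _ _ M Φ => Holds ν K M Φ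

/-- **The conjectures of Bloch and Soulé on zeta orders and ranks of higher Chow groups for all
schemes generated by the abelian varieties with almost all slope functions of every CM field.** -/
theorem result : AllFields Q := by
  have h : WithoutRelations Q := by
    intro p _ ν I _ K _ _ _ M Φ hind hMc hΦ hno
    have hnd : ∀ i, Φ i ∉ degTypes (M i) := fun i => notMem_degTypes_of_noRelations (hno i)
    exact holds_of K M Φ fun Y hY => ⟨Y, GS.elementary_of_types hind hMc hΦ hnd hY, fun k =>
      Or.inr ⟨k, RingHom.id _, 1, 1, one_pos, one_pos, rfl, rfl⟩⟩
  exact allFields h

end Pool.Agent.Results.MP_666bea_ag.EveryCMField
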