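import Pool.Agent.Q54.ZE.Zet3

/-!
# Meromorphic continuation of the zeta functions of all arithmetic schemes and cubic hypersurfaces

For a finite set `H` of triples `(i, j, k)` let `E_H` be the hypersurface
`∑_{(i, j, k) ∈ H} x_i y_j z_k = 1` in an affine space over `ℤ` (`tripS ℤ H`); it is smooth over `ℤ`.
We show, without any hypothesis:

* the zeta functions of all schemes of finite type over `ℤ` have a meromorphic continuation to the
  plane (this is the frozen statement `S00215`) if and only if those of the hypersurfaces `E_H` have;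
* for each `H` this is equivalent to the meromorphic continuation of the function
  `exp (∑_p ∑_n N_H(p^n) / n * p^(-n s))`, where `N_H(q)` is the number of solutions `(y, z)` in the
  field with `q` elements of the bilinear equations `∑_{(i, j, k) ∈ H} y_j z_k = 0`, one for each `i`;
* for every `N`, the zeta functions of all closed subschemes of the affine space of dimension `N`
  over `ℤ` have a meromorphic continuation if and only if those of the hypersurfaces
  `T(x, y, z) = 1` have, for all integral trilinear forms `T` with `N + 1` variables in the third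
  block.

The geometric part (the libraries `Pool.Agent.Y116.UV` and `Pool.Agent.Z125.UN`) concerns arbitrary
properties with the closure properties `Uni` and `Bnd`. The modules `Q54.ZE` prove that the
meromorphic continuation of the zeta function has them.
-/

namespace Pool.Agent.Results.MP_666bea_ag.TripartiteHypergraphs

open Q54.ZE CategoryTheory AlgebraicGeometry Pool.Agent.Y116.UV Pool.Agent.Z125.UN

/-- The zeta function of the scheme `X` has a meromorphic continuation to the plane. -/
def ZetaMeromorphic (X : Scheme.{0}) : Prop :=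
  ∃ F : ℂ → ℂ, MeromorphicOn F Set.univ ∧
    ∃ σ : ℝ, ∀ s : ℂ, σ < s.re →
      F s = ∏' x : {x : X // IsClosed ({x} : Set X)},
        (1 - ((Nat.card (X.residueField x.1) : ℂ) ^ (-s)))⁻¹

lemma zeta_iff (X : Sch ℤ) : ZetaMeromorphic X.left ↔ ZMer Set.univ X :=
  ⟨fun ⟨F, hF, h⟩ => ⟨F, ⟨hF, fun _ hs => absurd trivial hs⟩, h⟩, fun ⟨F, hF, h⟩ => ⟨F, hF.mero, h⟩⟩

/-- **The meromorphic continuation of all zeta functions of arithmetic schemes is equivalent to its
case of the hypersurfaces of tripartite hypergraphs.** -/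
theorem result :
    ((∀ (X : Scheme.{0}) (f : X ⟶ Spec (CommRingCat.of ℤ)),
        LocallyOfFiniteType f → QuasiCompact f → ZetaMeromorphic X) ↔
      ∀ (a b c : ℕ) (H : Finset (Fin a × Fin b × Fin c)), ZetaMeromorphic (tripS ℤ H).left) ∧
    (∀ (a b c : ℕ) (H : Finset (Fin a × Fin b × Fin c)), ZetaMeromorphic (tripS ℤ H).left ↔
      ∃ F : ℂ → ℂ, MeromorphicOn F Set.univ ∧ ∃ σ : ℝ, ∀ s : ℂ, σ < s.re → F s = solZeta H s) ∧
    (∀ N : ℕ, (∀ I : Ideal (MvPolynomial (Fin N) ℤ),
        ZetaMeromorphic (Spec (CommRingCat.of (MvPolynomial (Fin N) ℤ ⧸ I)))) ↔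
      ∀ (a b : ℕ) (T : Fin a → Fin b → Fin (N + 1) → ℤ), ZetaMeromorphic (hypS T).left) ∧
    ∀ (a b c : ℕ) (H : Finset (Fin a × Fin b × Fin c)), Smooth (tripS ℤ H).hom := by
  have hS : Tr Set.univ := fun s => ⟨fun _ => trivial, fun _ => trivial⟩
  have hft : ∀ (a b c : ℕ) (H : Finset (Fin a × Fin b × Fin c)), FT False (tripS ℤ H) :=
    fun a b c H => ft_aff False
  refine ⟨⟨fun h a b c H => ?_, fun h X f hf hq => ?_⟩, fun a b c H => ?_, fun N => ?_,
    fun a b c H => ?_⟩
  · exact h _ (tripS ℤ H).hom (hft a b c H).locallyOfFiniteType (hft a b c H).quasiCompact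
  · have h1 := all_of_trip hS (fun a b c H => (zeta_iff _).1 (h a b c H)) (Over.mk f)
      ⟨hf, hq, fun h => h.elim⟩
    exact (zeta_iff (Over.mk f)).2 h1
  · rw [zeta_iff, zmer_sol H hS mer_int]
    exact ⟨fun ⟨F, hF, h⟩ => ⟨F, hF.mero, h⟩,
      fun ⟨F, hF, h⟩ => ⟨F, ⟨hF, fun _ hs => absurd trivial hs⟩, h⟩⟩
  · have h1 := graded (bnd_zmer hS mer_int) N
    constructor
    · intro h a b T
      exact (zeta_iff _).2 (h1.1 (fun I => (zeta_iff (aff ℤ (_ ⧸ I))).1 (h I)) a b T)
    · intro h I
      exact (zeta_iff (aff ℤ (_ ⧸ I))).2 (h1.2 (fun a b T => (zeta_iff _).1 (h a b T)) I)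
  · change Smooth (Spec.map (CommRingCat.ofHom (algebraMap ℤ (Trip ℤ H))))
    rw [HasRingHomProperty.Spec_iff (P := @Smooth)]
    exact RingHom.smooth_algebraMap.2 (trip_smooth H)

end Pool.Agent.Results.MP_666bea_ag.TripartiteHypergraphs
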