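import Mathlib
import Pool.Agent.Q29.TE.Law3
import Pool.Agent.TH170.GS.Rel
import Pool.Agent.TH170.GS.TB
import Pool.Agent.Q29.FN.Zeta

/-!
# Zeta orders and ranks of higher Chow groups for the schemes generated by abelian varieties over
finite fields with almost all slope types of typical CM fields

Over an algebraic closure of the field with `p` elements each abelian variety is isogenous to the
reduction of an abelian variety of CM type (Honda, Tate). So an abelian variety over the field with
`p ^ a` elements is modelled by `RedAV` (starting files): a finite product of CM types `(E i, Φ i)`
with Weil numbers `π i ∈ E i` that satisfy the formula of Shimura and Taniyama; its cohomology of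
degree `n`, with coefficients in an algebraically closed field `Ω`, consists of the alternating
`n`-forms on `Ω ⊗ H_1`, on which the Frobenius endomorphism acts by `π`. Let `K i` be finitely many
CM fields, of degrees `2 g i`, that are pairwise independent: for `i ≠ k` and all complex embeddings
`φ` of `K i` and `ψ` of `K k` some automorphism of `ℂ` is the identity on `φ (K i)` and the complex
conjugation on `ψ (K k)` (this is no condition for one field).

We fix an isomorphism `ν` of the algebraic closure of `ℚ_p` with `ℂ`; it defines a `p`-adic
valuation of `ℂ`, with the value one at `p`. Let `M i` be a function with integral values on the
complex embeddings of `K i`, invariant under complex conjugation (the weights). A CM type `Φ i` of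
`K i` (a choice of one element out of each complex conjugate pair of embeddings), `M i` and a real
number `κ ≠ 0` prescribe the slopes `(a + κ M) / 2` (at the embeddings in `Φ i`) and `(a - κ M) / 2`
(outside of `Φ i`) of a Weil number for `p ^ a` in `K i`. If `p` splits completely in `K i` then, by
Honda and Tate, all rational slopes between `0` and `a` that are symmetric in this way occur for
abelian varieties over finite fields. The case `M = 1`, `κ = a` is the ordinary case.

For a family of types `Φ i` let `𝒞` (`OfTypes`) be the class of the abelian varieties `Y` each of
whose factors is supersingular or has a Frobenius endomorphism some power of which is, for some `i`,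
a Weil number in `K i` with the slopes prescribed by `Φ i`, `M i` and some real number `κ i ≠ 0`
(which depends only on `Y` and `i`). So `Y` is, over an algebraic closure, isogenous to a product of
powers of one abelian variety for each `i`, with the given slopes, and of a supersingular one. If `M
= 1` and `κ = a` the class contains all ordinary abelian varieties with the CM types `Φ i`.

`Homology Ω V` are data of motivic homology `M X i j = H_i^M(X, ℚ(j)) = CH_j(X, i - 2 j) ⊗ ℚ` and of
`ℓ`-adic homology `E X i j = H_i(X, ℚ_ℓ(j))` (coefficients extended to `Ω`) of schemes `X` of finite
type over a finite field (the elements of `V`), with the Frobenius and the regulator. For a family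
of types let `𝒢` be the smallest class (`Generated`) of such schemes that contains those with the
homology groups of abelian varieties in `𝒞` (`IsAbelianOfTypes`), that is closed under direct
summands of finite sums of twists of motives, and that contains all of a closed subscheme `Z` of
`X`, `X` and `X ∖ Z` if it contains two of them.

The property `Holds` of the slope types `Φ i`, `M i` is the following: **for all schemes `X` in `𝒢`
- smooth or not, proper or not - the conjectures of Bloch and Soulé (`ZetaOrders`) are true.** That
is, the zeta function of `X` has a meromorphic continuation to the whole plane, and for all integers
`j` the groups `CH_j (X, m) ⊗ ℚ` (this is `T.M X (2 j + m) j`, and `CH ^ r (X, m) ⊗ ℚ` for `j = d -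
r` in the notation of the question) are finite-dimensional and zero for all large `m`, and

`ord_{s = j} ζ_X (s) = - ∑_m (-1) ^ m rank CH_j (X, m)`.

The first part, for all schemes over finite fields, is due to Dwork and Grothendieck and is only
included since the second part is about the continuation. The second part is Q2 for `X`.

The formal statement. `V` is the class of the separated schemes of finite type over the field with
`Q` elements, `sp X` the scheme of Mathlib which belongs to `X : V`, and `eulerProduct (sp X)` is
its Euler product over the closed points, as in the frozen statements of Q1. `HasTraceFormula` is
the theorem of Grothendieck which expresses the Euler product by the characteristic polynomials of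
the Frobenius on the cohomology with compact supports; it is a hypothesis, as are the properties of
the theory of cycles that are used for the abelian varieties (`IsHomology`, starting files):
Poincaré duality, the formal properties of correspondences, the nilpotence of homologically trivial
correspondences (Kimura), the operation of the Frobenius endomorphism on higher Chow groups, the
vanishing of the higher rational `K`-groups of a finite field (Quillen), and the theorem of Tate on
divisors; and `CH_j (X, m) = 0` for `m < 0`.

For all `X` in `𝒢` the conjecture `TB (X)` of Jannsen is true (`MP_2ce3e7_ag.TypicalFields`): the
regulators induce isomorphisms of `H_i^M(X, ℚ(j)) ⊗ ℂ` with the spaces of the Frobenius invariants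
in `H_i(X, ℚ_ℓ(j))`, and the eigenvalue one is semisimple. So the rank of `CH_j (X, m)` is the
multiplicity of the zero `s = j` of the function `det (1 - Q ^ (- s) F)`, `F` the geometric
Frobenius on the cohomology with compact supports in the degree `2 j + m`. This last step was proved
by helper124 (`Pool.Agent.Q124.ZO`).


**The theorem.** Let `E` be a CM field of degree `2 g`, and let all values of the weights `M` divide
the number `n`.

* (`MostTypes`) For all `n` and `ε > 0` there is a number `u` such that the property `Holds` is
  false for at most **a proportion of `max (ε, 0.68 q / g)` of the `2 ^ g` types** of `E`, if `g ≥
  u`, the normal subfields of `E` are small (`SmallNormal`: `g` is odd, or all smooth parts of `g`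
  are small, that is, a divisor of `g` with all prime factors at most `y` is at most `√(g y ^ 3) /
  (1 + log g) ^ 3`, for all `y ≥ 2`, for instance if `g` is large and has a prime factor larger than
  `√g (1 + log g) ^ 3`, but also if `g = 4 p ^ 2` with a large prime number `p`; or the subfields of
  `E` that are normal over `ℚ` are contained in a subfield of degree at most `√g / (1 + log g) ^
  2`), and `q ≤ g` is at least the part of `g` composed of the primes 2 and 3 (or at least twice the
  number of the CM subfields of `E` of degree 4 or 6; `SmallPart`). In particular the property is
  true for almost all types of **all CM fields of degree `2 g` with `g` odd and prime to `3`**,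
  without any condition on the Galois group or on the subfields; for at least 86 percent of all
  types if `g` is odd and not a power of 3; and for at least 32 percent of all types of all fields
  with small normal subfields (take `q = g`).
* (`OddDegrees`) For **all CM fields of degree `2 g` with `g` odd**, `g ≥ u (n)`, without any
  condition on the Galois group or the subfields, it is true for **at least one half of all types**,
  and if all weights are one then for **at least two thirds of all types**.
* (`AlmostAllTypes`, `AlmostAllDegrees`) Let `q ^ k ≤ g` for all `q` with `q ^ 2 ∣ g`. Then for all
  CM fields of degree `2 g` it is false for at most `2 ^ g * C * n ^ 2 * g ^ (6 / k - 1/4 + ε)`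
  types, `C = C (k, ε)`. At most `4 x ^ (1 - 1/k)` of the numbers `g ≤ x` do not have this property
  (`k ≥ 2`).

All this is proved more generally for finitely many pairwise independent fields `K i`; the
proportions of the types with the property are then multiplied (in the third part the bounds for the
exceptions are added).

**What was known.** The starting files prove that almost all types of a CM field have no relations
if it has few CM subfields, and this for all CM fields of degree `2 g` if `g` has a prime factor
larger than `g ^ (1 / 2 + δ)`. For the fields with many CM subfields of the other degrees (examples
are `g = p q` with two nearly equal prime numbers, and `g = p ^ k`) this was open; for the degrees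
`2 r ^ k`, `r` prime, a theorem of this team gives the property for at least one half of all types,
by congruences (it is used here for `r = 3`). Some condition is necessary: if `E` is multiquadratic
and `M = 1` then nearly one half of all types is degenerate (`Pool.Agent.Q29.DP.multiquadratic`).

**The proof.** A multiplicative relation between the conjugates of the Weil numbers gives, by the
`p`-adic valuations, a relation between the translates of `e = ± M` for one of the types: `∑ n φ * e
(σ φ) = 0` for all automorphisms `σ` of `ℂ`, with `n φ̄ = - n φ`, `n ≠ 0`. So it remains to estimate
the number of the degenerate types: those for which `e` is orthogonal to a minimal Galois-stable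
space `S` of antisymmetric functions on the set of the complex embeddings of `E`. Let `G` be the
Galois group of the normal closure and `H` the stabilizer of an embedding, `K` the kernel of the
action of `G` on `S` and `F` the field of `H K`; so `S` comes from `F` and is a faithful
representation of the Galois group `G / K` of the normal closure of `F`. Let `c = e + d - h` where
`d` and `h` are the dimensions of `S` and of the part of `S` fixed by `H`, and `e` is the dimension
of the algebra of the endomorphisms of `S`. The spaces isomorphic to `S` form a component.

(A) The sum of `h d / e` over all components is at most `g`. A component with `c ≥ 3` contributes at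
most `2 ^ g C n ^ 4 (h d / (e g)) (log g) ^ 21 / √g`; so these components together contribute
little. For this the size of `F` must be eliminated from the estimate of the starting files; this is
done with their inequality for small denominators and for groups of order `g ^ (log g)`.

(B) The components with `c = 2` and dimension `d ≥ 3`: those with `d ≥ D` contribute at most `2 ^ g
64 log (4 D) / D` together. If `3 ≤ d < D` then by Minkowski `F` has bounded degree, and each
contributes `2 ^ g o (1 / g)`; this is the new analytic step. Let `p` be a prime number of the size
of a large multiple of `√g`. The spaces isomorphic to `S` have at most `2 ^ e p ^ (h - e)`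
reductions `R` modulo `p`, and by Fourier analysis modulo `p` the number of the types orthogonal to
`R` is at most `2 ^ g p ^ (-d)` times the sum over the functions `u` in `R` of a product of cosines,
which is at most a Gaussian function of `u`. A short `u ≠ 0` generates `R` (short integral functions
which are independent over `ℚ` are independent modulo `p`, by Gram determinants); so the sum over
all `R` of the sums over the `u ≠ 0` is at most one Gaussian sum, hence bounded, and altogether
there are at most `2 ^ g (2 ^ e p ^ (-2) + O (p ^ (-d)))` types.

(C) `c = d = 2`: then `F` has degree 4 or 6, there are at most as many of these components as CM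
subfields of degree 4 or 6, and at most half of the part of `g` composed of 2 and 3; each
contributes at most `2 ^ g 1.351 / g`, by the theorem of Erdos on sums of weights with signs,
applied twice. If `g` is a power of 3, and for `OddDegrees`, these components are excluded by a
congruence modulo 3: the lattice of the relations contains a function that is invariant modulo 3
under a Sylow 3-subgroup, which has two orbits on the embeddings.

(D) `c = 1`: then `F` is normal over `ℚ`, `d ^ 2 ≤ [F : ℚ] / 2`, and the component contributes at
most `2 ^ g C n (log g) ^ (3/2) √(d / g)`. If `g` is odd then `d = 1` (Frobenius and Schur) and
there is at most one. In general the sum of `d ^ 2` over those with `d < y` is at most the largest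
divisor of `g` composed of primes `≤ y`; and over all of them at most the degree of a field which
contains all subfields normal over `ℚ`.

(E) For the bounds with a power saving the number of the components with `c ≤ 2` is estimated by the
number of the classes of cyclic subgroups of `G / L`, `L` the intersection of their kernels, using
the theorem of Sylow; here the order of `G / L` is at most `2 g 2 ^ Ω(2 g)` because `H K / K` has
order at most two and is not central. Lemmas of this part were proved by helper24, helper38,
helper178, helper204, helper227, helper261 and helper275 of this team.
-/

set_option autoImplicit false

namespace Pool.Agent.Results.MP_666bea_ag.TypicalFields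

open CategoryTheory AlgebraicGeometry NumberField Module Pool.Agent.H204R3.CM Pool.Agent.H977R3.CM
  Pool.Agent.TH170 Pool.Agent.TH170.FW Pool.Agent.Q29.TE Pool.Agent.W495.TA Pool.Agent.W495.FM
  Pool.Agent.Q124.ZO

open Pool.Agent.Q29.DP (notMem_degTypes_of_noRelations)

/-- The conjectures of Bloch and Soulé hold for all schemes generated by abelian varieties over finite
fields with the slope types `Φ`. -/
def Holds {p : ℕ} [Fact p.Prime] (ν : PadicAlgCl p ≃+* ℂ) {I : Type} (K : I → Type)
    [∀ i, Field (K i)] (M : ∀ i, (K i →+* ℂ) → ℤ) (Φ : ∀ i, Set (K i →+* ℂ)) : Prop :=
  ∀ (V : Type) (T : Homology ℂ V) (sp : V → Scheme.{0}) (Q : ℕ), IsHomology T →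
    (∀ (X : V) (i j : ℤ), i < 2 * j → ∀ x : T.M X i j, x = 0) → 1 < Q →
    (∀ X : V, HasTraceFormula T sp Q X) →
    ∀ X : V, Generated T (GS.IsAbelianOfTypes ν K M Φ T) X → ZetaOrders T sp X

theorem holds_of {p : ℕ} [Fact p.Prime] {ν : PadicAlgCl p ≃+* ℂ} {I : Type} (K : I → Type)
    [∀ i, Field (K i)] (M : ∀ i, (K i →+* ℂ) → ℤ) (Φ : ∀ i, Set (K i →+* ℂ))
    (h : ∀ Y : RedAV p ν, GS.OfTypes K M Φ Y → ∃ Z : RedAV p ν,
      TH117.BL.HasElementaryRelations Z ∧ TH117.BL.IsPowersTimesSupersingular Z Y) :
    Holds ν K M Φ := fun _ _ _ _ hT hneg hQ htr X hX =>
  Pool.Agent.Q29.FN.zetaOrders hT (hneg X) (GS.tb_types h hT hX) hQ (htr X)

/-- The property of the slope types. -/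
def Q : TypeProperty := fun _ _ ν _ _ K _ _ _ M Φ => Holds ν K M Φ

/-- **The conjectures of Bloch and Soulé on zeta orders and ranks of higher Chow groups for all
schemes generated by the abelian varieties with almost all slope types of typical CM fields.** -/
theorem result : MostTypes Q ∧ OddDegrees Q ∧ AlmostAllTypes Q ∧ AlmostAllDegrees := by
  have h : WithoutRelations Q := by
    intro p _ ν I _ K _ _ _ M Φ hind hMc hΦ hno
    have hnd : ∀ i, Φ i ∉ degTypes (M i) := fun i => notMem_degTypes_of_noRelations (hno i)
    exact holds_of K M Φ fun Y hY => ⟨Y, GS.elementary_of_types hind hMc hΦ hnd hY, fun k =>
      Or.inr ⟨k, RingHom.id _, 1, 1, one_pos, one_pos, rfl, rfl⟩⟩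
  exact ⟨mostTypes h, oddDegrees h, almostAllTypes h, almostAllDegrees⟩

end Pool.Agent.Results.MP_666bea_ag.TypicalFields
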