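import Mathlib
import Pool.Agent.Q124.ZO.Main
import Pool.Agent.Q124.Lay.Count

/-!
# Zeta orders and ranks of higher Chow groups for schemes generated by products of abelian
varieties and arbitrary varieties

Fix a prime `p`, a nonempty finite set `κ`, dimensions `g i ≥ 1` and, for each `i`, a symmetric
Newton polygon with slopes `s i j` and `1 - s i j` (`j < g i`, increasing in `j`, between `0` and
`1 / 2`, with integral break points: `IsPolygon (s i)`) whose smallest slope is at most `σ < 1 / 2`;
so it is any Newton polygon that is not the supersingular one. `NewtonStratum g s p a` is the set
of families of isogeny classes of abelian varieties `A_i` of dimension `g i` over the field with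
`p ^ a` elements having these Newton polygons (by the theorem of Honda and Tate it consists of
families of characteristic polynomials of Frobenius). Let `devSum (s i)`, `sqSum (s i)` be the sums of
the numbers `1 - 2 s i j` and of their squares, and let `0 < δ ≤ 1`, `δ₂ > 0` be numbers such that
`δ g i ≤ devSum (s i)` and `δ₂ g i ≤ sqSum (s i)` for all `i`. So `δ = δ₂ = 1` if the `A_i` are
ordinary.

We prove that the number of elements of `NewtonStratum g s p a` tends to infinity with `a`, and that
for all members, except for at most

  `C * a * p ^ (- a (1 - 2 σ) / 6) * |NewtonStratum g s p a|`

(`C` depends on `p`, `g`, `s`, `σ` only), the following is true.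

Let `k` be the field with `Q = p ^ (a s')` elements, for any `s' > 0`. Let `𝒜` be the class of the
abelian varieties `A` over `k` which are isogenous to a product of powers of the `A_i`, of any
dimension, and let `X₀` be an element of `𝒜` in which all `A_i` occur, for instance the product of
the `A_i`. Let `𝒵` be the class of all smooth projective varieties `Z` over `k` with one of the
following properties; nothing is assumed on relations between the Frobenius eigenvalues of `Z` and
of `A`, and the exceptional set is independent of `Z`.

* (`IsProduct`) The homologically trivial self-correspondences of degree zero of `Z` are nilpotent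
  (`Nilpotence`; by Kimura and O'Sullivan this is so for all curves and for all varieties dominated by
  products of curves, and it is conjectured for all `Z`), and the conjecture `TB (X₀ ^ n × Z)` is
  true for the cycles of codimension `c ≤ dim Z + (n - ⌊e⌋) / 2` (`TBAt`), where `n` is any number such
  that the level of `Z` is at most `e < (n + 1) δ`: the slopes of `H ^ w (Z)` lie between
  `(w - e) / 2` and `(w + e) / 2`; `e = dim Z` is always possible, so that one can take `n = dim Z` if
  the `A_i` are ordinary. Here `TB (Y)` is the conjecture that the higher Chow groups of `Y` with
  rational coefficients are zero, the cycle map is an isomorphism of `CH ^ c (Y) ⊗ ℚ_ℓ` with the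
  space of Tate classes, and the eigenvalue one is semisimple.
* (`IsNarrowProduct`) `δ > 1 / 3`, and `Z` is a curve, or a surface with `Nilpotence` and `TB (Z)`
  such that each Frobenius eigenvalue `ρ` on `H ^ 2 (Z)` has its slopes in `(1 - δ, 1 + δ)`, or the mean
  of `(λ - 1) ^ 2`, `λ` the slopes of the conjugates of `ρ`, is smaller than `δ₂ / 2`. For instance `Z`
  is the product of two curves, the Jacobian of one of which has no slope `0`, if the `A_i` are
  ordinary: then all hypotheses are theorems (Tate, Soulé). More generally `Z` can be a variety of any
  dimension `d` with `Nilpotence` and `TB (Z)` and similar conditions on the slopes of `H ^ w (Z)`,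
  `1 < w < 2 d - 1`.

Let `𝒢` be the class generated by the products `A × Z`, `A` in `𝒜` and `Z` in `𝒵` (`Generated`): the
smallest class of separated schemes of finite type over `k` which contains them, the schemes whose
motives are direct summands of finite sums of twists of motives of members, and all of `Y`, `X`,
`X ∖ Y` if it contains two of them, `Y` a closed subscheme of `X`. By base change of localization
sequences `𝒢` contains all products `A × U`, `A` in `𝒜`, for all schemes `U` in the class generated by
`𝒵`: for instance for all schemes `U` of dimension one, and for many open and singular surfaces.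

**Theorem** (`BlochSouleTheorem`): for all `X` in `𝒢` the zeta function of `X` is meromorphic on the
whole plane, and for all integers `j` the groups `CH_j (X, m) ⊗ ℚ` are finite-dimensional, zero for
all large `m`, and

  `ord_{s = j} ζ_X (s) = - ∑_m (-1) ^ m rank CH_j (X, m)`.

(In the notation of the problem `CH_j (X, m) = CH ^ r (X, m)`, `j = d - r`.) The first part, for all
schemes over finite fields, is due to Dwork and Grothendieck and is only included since the second
part is about the continuation.

The formal statement. `V` is the class of all separated schemes of finite type over `k`, `sp X` the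
scheme of Mathlib which belongs to `X : V`, and `eulerProduct (sp X)` is its Euler product over the
closed points, as in the frozen statements of the problem. `S` are the motivic homology
`S.M X i j = CH_j (X, i - 2 j)_ℚ` and the `ℓ`-adic homology `S.E X i j = H_i (X, ℚ_ℓ(j))` with
coefficients extended to `ℂ`, which is isomorphic to an algebraic closure of `ℚ_ℓ`; `𝒱` is a class
of smooth projective varieties closed under products, `C` and `T m` their Chow groups and higher Chow
groups, `H` their `ℓ`-adic cohomology. `IsRealization` lists the known facts which relate them, and
`HasTraceFormula` is the theorem of Grothendieck which expresses the Euler product by the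
characteristic polynomials of Frobenius. `IsTripleFor`, with an abelian variety `B` in the place of
`X₀ ^ n`, lists known facts on `A`, `B` and `Z`: the cohomology of `A`, `B`, `A × A`, `A × B` is
generated by `H ^ 1`, where Frobenius has the given eigenvalues, and the theorem of Tate on divisors
on them; the nilpotence for `A` (Kimura, Shermenev), and for `Z`. `HasInverse` (the isomorphism
`H ^ (2 d - 1) (Z) → H ^ 1 (Z)` is given by a divisor on `Z × Z`) is known for all `Z` (Kleiman).

The proof. The conjecture `TB (X)` of Jannsen holds for all `X` in `𝒢` by MP_2ce3e7_ag
UniversalFactor: for smooth projective `Y` it is equivalent to the vanishing of the higher Chow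
groups, of the kernel of the cycle map with coefficients extended to `K`, and of the space of the
Tate classes modulo algebraic classes, three theories on which correspondences act, and the vanishing
of such a theory for `A × Z` follows from its vanishing for `X₀ ^ n × Z`. By `TB (X)` the group
`CH_j (X, m)_ℚ` has as dimension the multiplicity of the eigenvalue one of Frobenius on
`H_{2 j + m} (X, ℚ_ℓ(j))`, and this is the multiplicity of the zero `s = j` of the function
`det (1 - Q ^ (- s) F)`, `F` the geometric Frobenius on the cohomology with compact supports in the
degree `2 j + m`. The order of a continuation does not depend on the continuation, as meromorphic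
functions which agree on a half-plane agree up to a discrete set.
-/

set_option autoImplicit false

namespace Pool.Agent.Results.MP_666bea_ag.UniversalFactor

open Polynomial Pool.Agent.Q124.Lay Pool.Agent.Q124.ZO

/-- The theorem for the family of isogeny classes over the field with `q` elements with the
Frobenius polynomials `F i`, of dimension `g i` and slopes `s i j`. -/
def Holds {κ : Type} (g : κ → ℕ) (s : ∀ i, Fin (g i) → ℚ) (q : ℕ) (F : κ → ℤ[X]) : Prop :=
  ∀ δ δ₂ : ℝ, 0 < δ → δ ≤ 1 → 0 < δ₂ → (∀ i, δ * g i ≤ devSum (s i)) →
    (∀ i, δ₂ * g i ≤ sqSum (s i)) →
    BlochSouleTheorem δ δ₂ q F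

/-- **The conjecture of Bloch and Soulé on zeta orders and ranks of higher Chow groups for all
schemes generated by products `A × Z`, for the abelian varieties `A` outside of a thin subset of a
Newton stratum.** -/
theorem result {κ : Type} [Fintype κ] [Nonempty κ] (p : ℕ) [Fact p.Prime]
    -- dimensions and Newton polygons
    (g : κ → ℕ) (hg : ∀ i, 1 ≤ g i) (s : ∀ i, Fin (g i) → ℚ) (hs : ∀ i, IsPolygon (s i))
    -- the smallest slopes
    (σ : ℚ) (hσ : ∀ i (h : 0 < g i), s i ⟨0, h⟩ ≤ σ) (hσ2 : σ < 1 / 2) :
    (∀ N : ℕ, ∃ a₀ : ℕ, ∀ a, a₀ ≤ a →
      (NewtonStratum g s p a).Finite ∧ N ≤ (NewtonStratum g s p a).ncard) ∧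
    ∃ C : ℝ, 0 < C ∧ ∀ a : ℕ, 0 < a →
      ({F ∈ NewtonStratum g s p a | ¬ Holds g s (p ^ a) F}.ncard : ℝ) ≤
        C * (a * (p : ℝ) ^ (-((a : ℝ) * (1 - 2 * σ) / 6))) *
          ((NewtonStratum g s p a).ncard : ℝ) :=
  count p g hg s hs σ hσ hσ2 (fun δ δ₂ q F => BlochSouleTheorem δ δ₂ q F)
    fun _ _ _ _ hq hδ0 hδ1 hδ₂ hB hM =>
    blochSouleTheorem hB hM hδ0 hδ1 hδ₂ hq

end Pool.Agent.Results.MP_666bea_ag.UniversalFactor
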